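import Pool.Agent.Helper92.GG.Stmts
import Pool.Agent.Helper92.GG.RK

/-! # Module K2: systems with `k ≥ 2` do not exist -/

set_option autoImplicit false

namespace Pool.Agent.Helper92.GG

open MvPolynomial
open Pool.Agent.Helper49.Girth (cl ty ty_zero ty_succ ty_add ty_add_two mem_cl cl_mono coe_cl
  subset_cl mem_cl_of_mem cl_le_cl)

universe u

section K2rank

variable {K L : Type u} [Field K] [Field L] [Algebra K L]

/-- submodularity, for nested sets -/
theorem K2_submod {A B t : Set L} (hB : B.Finite) (ht : t.Finite) (h : A ⊆ B) :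
    rk K (B ∪ t) + rk K A ≤ rk K (A ∪ t) + rk K B := by
  have hA : A.Finite := hB.subset h
  have h1 := rk_submod (K := K) hA hB ht
  rw [Set.union_eq_self_of_subset_left h] at h1
  omega

theorem K2_rk_lt {A t : Set L} (hA : A.Finite) (ht : t.Finite)
    (h : ¬ t ⊆ (cl K A : Set L)) : rk K A + 1 ≤ rk K (A ∪ t) := by
  by_contra hc
  exact h (subset_cl_of_rk_union_le hA ht (by omega))

theorem K2_exists_subset {A t : Set L} (hA : A.Finite) (ht : t.Finite) (j : ℕ)
    (h1 : rk K A ≤ j) (h2 : j ≤ rk K (A ∪ t)) : ∃ B ⊆ t, rk K (A ∪ B) = j := by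
  induction t, ht using Set.Finite.induction_on with
  | empty =>
    refine ⟨∅, le_rfl, ?_⟩
    rw [Set.union_empty] at h2 ⊢
    omega
  | @insert a t hat ht ih =>
    by_cases h3 : j ≤ rk K (A ∪ t)
    · obtain ⟨B, hB, hr⟩ := ih h3
      exact ⟨B, hB.trans (Set.subset_insert a t), hr⟩
    · refine ⟨insert a t, le_rfl, ?_⟩
      have h4 := rk_insert_le (K := K) (hA.union ht) a
      have h5 : A ∪ insert a t = insert a (A ∪ t) := by
        ext b; simp only [Set.mem_union, Set.mem_insert_iff]; tauto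
      rw [h5] at h2 ⊢
      omega

end K2rank

section K2spec

variable {K L : Type u} [Field K] [Field L] [Algebra K L]

theorem K2_spec_sum {s : Set L} {κ ι : Type} (a : κ → L) (ha : ∀ j, a j ∈ cl K s)
    {y y' : ι → L} (h : Spec (cl K s) y y') : Spec K (Sum.elim a y) (Sum.elim a y') := by
  intro f
  have key : ∀ y : ι → L, aeval (Sum.elim a y) f =
      aeval y (aeval (Sum.elim (fun j => (C ⟨a j, ha j⟩ : MvPolynomial ι (cl K s))) X) f) := by
    intro y
    induction f using MvPolynomial.induction_on with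
    | C c =>
      rw [algHom_C, algHom_C,
        IsScalarTower.algebraMap_apply K (cl K s) (MvPolynomial ι (cl K s)),
        AlgHom.commutes]
      rfl
    | add p q hp hq => rw [map_add, map_add, map_add, hp, hq]
    | mul_X p i hp =>
      rw [map_mul, map_mul, map_mul, hp, aeval_X, aeval_X]
      congr 1
      rcases i with i | i
      · simp
      · simp
  rw [key, key]
  exact h _

/-- ranks over `s` drop under specialization over `cl K s` -/
theorem K2_spec_rk {s : Set L} (hs : s.Finite) {ι : Type} [Finite ι] {y y' : ι → L}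
    (h : Spec (cl K s) y y') :
    rk K (s ∪ Set.range y') ≤ rk K (s ∪ Set.range y) := by
  rw [rk_union_eq hs (Set.finite_range y), rk_union_eq hs (Set.finite_range y')]
  exact Nat.add_le_add_left h.rk_le _

theorem K2_spec_le {M N : IntermediateField K L} (hMN : M ≤ N) {ι : Type} {y y' : ι → L}
    (h : Spec N y y') : Spec M y y' := by
  intro f
  let j : M →+* N := (IntermediateField.inclusion hMN).toRingHom
  have hj : (algebraMap N L).comp j = algebraMap M L := RingHom.ext fun _ => rfl
  have key : ∀ y : ι → L, aeval y f = aeval y (MvPolynomial.map j f) := by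
    intro y
    rw [aeval_def, aeval_def, eval₂_map, hj]
  rw [key, key]
  exact h _

theorem K2_spec_mono {s t : Set L} (hst : s ⊆ t) {ι : Type} {y y' : ι → L}
    (h : Spec (cl K t) y y') : Spec (cl K s) y y' :=
  K2_spec_le (cl_mono hst) h

theorem K2_spec_base {s : Set L} {ι : Type} {y y' : ι → L}
    (h : Spec (cl K s) y y') : Spec K y y' := by
  intro f
  have key : ∀ y : ι → L, aeval y f =
      aeval y (MvPolynomial.map (algebraMap K (cl K s)) f) := by
    intro y
    rw [aeval_map_algebraMap]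
  rw [key, key]
  exact h _

/-- a point with a nontrivial specialization inside `cl K s` is not contained in it -/
theorem K2_not_subset {s : Set L} {ι : Type} {z x : ι → L} (h : Spec (cl K s) z x)
    (hne : z ≠ x) : ¬ Set.range z ⊆ (cl K s : Set L) := by
  intro hz
  apply hne
  funext c
  have h1 := h (X c - C (⟨z c, hz ⟨c, rfl⟩⟩ : cl K s)) (by
    rw [map_sub, aeval_X, algHom_C]
    exact sub_self _)
  rw [map_sub, aeval_X, algHom_C] at h1
  exact (sub_eq_zero.mp h1).symm

variable {L' : Type u} [Field L'] [Algebra K L']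

open Classical in
/-- a partially defined embedding, extended by zero -/
noncomputable def K2_ex {M : IntermediateField K L} (θ : M →ₐ[K] L') (a : L) : L' :=
  if h : a ∈ M then θ ⟨a, h⟩ else 0

theorem K2_ex_eq {M : IntermediateField K L} (θ : M →ₐ[K] L') {a : L} (h : a ∈ M) :
    K2_ex θ a = θ ⟨a, h⟩ := dif_pos h

theorem K2_ex_conj {M : IntermediateField K L} (θ : M →ₐ[K] L') {ι : Type} {y : ι → L}
    (hy : ∀ i, y i ∈ M) : Conj K y (fun i => K2_ex θ (y i)) := by
  have h1 : Conj K (fun i => (⟨y i, hy i⟩ : M)) (fun i => M.val ⟨y i, hy i⟩) :=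
    conj_of_algHom M.val _
  have h2 : Conj K (fun i => (⟨y i, hy i⟩ : M)) (fun i => θ ⟨y i, hy i⟩) :=
    conj_of_algHom θ _
  have h3 : (fun i => K2_ex θ (y i)) = fun i => θ ⟨y i, hy i⟩ := by
    funext i
    exact K2_ex_eq θ (hy i)
  rw [h3]
  exact h1.symm.trans h2

theorem K2_ex_inj {M : IntermediateField K L} (θ : M →ₐ[K] L') {a b : L} (ha : a ∈ M)
    (hb : b ∈ M) (h : K2_ex θ a = K2_ex θ b) : a = b := by
  rw [K2_ex_eq θ ha, K2_ex_eq θ hb] at h
  exact congrArg Subtype.val (θ.injective h)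

theorem K2_ex_rk {M : IntermediateField K L} (θ : M →ₐ[K] L') {t : Set L}
    (ht : t ⊆ (M : Set L)) : rk K (K2_ex θ '' t) = rk K t := by
  have h1 := rk_image_val M θ (Subtype.val ⁻¹' t : Set M)
  have h2 : (Subtype.val '' (Subtype.val ⁻¹' t : Set M) : Set L) = t := by
    ext b
    constructor
    · rintro ⟨a, ha, rfl⟩
      exact ha
    · intro hb
      exact ⟨⟨b, ht hb⟩, hb, rfl⟩
  have h3 : K2_ex θ '' t = θ '' (Subtype.val ⁻¹' t : Set M) := by
    ext b
    constructor
    · rintro ⟨a, ha, rfl⟩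
      exact ⟨⟨a, ht ha⟩, ha, (K2_ex_eq θ (ht ha)).symm⟩
    · rintro ⟨a, ha, rfl⟩
      exact ⟨a, ha, K2_ex_eq θ a.2⟩
  rw [h3, h1, h2]

end K2spec

section K2edge

variable {K : Type u} [Field K] {n : ℕ} {P : Ideal (MvPolynomial (Fin n ⊕ Fin n) K)}
  {L L' : Type u} [Field L] [Algebra K L] [Field L'] [Algebra K L']

theorem K2_edge_symm {σ : Bool} {x y : Fin n → L} (h : Edge P σ x y) : Edge P (!σ) y x := by
  unfold Edge at *
  cases σ
  · exact h
  · exact h

omit [Field L] in
theorem K2_swap {x y : Fin n → L} : (Sum.elim x y) ∘ Sum.swap = Sum.elim y x := by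
  funext i
  rcases i with i | i <;> rfl

theorem K2_edge_conj {σ : Bool} {x y : Fin n → L} {x' y' : Fin n → L'} (h : Edge P σ x y)
    (hc : Conj K (Sum.elim x y) (Sum.elim x' y')) : Edge P σ x' y' := by
  unfold Edge at *
  cases σ
  · have h2 := hc.comp Sum.swap
    rw [K2_swap, K2_swap] at h2
    rw [← h]
    exact (conj_iff_ker.mp h2).symm
  · rw [← h]
    exact (conj_iff_ker.mp hc).symm

theorem K2_vtx {σ : Bool} {x y : Fin n → L} (h : Edge P σ x y) : Vtx P σ x := by
  unfold Edge at h
  unfold Vtx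
  rw [← h]
  ext f
  rw [Ideal.mem_comap, RingHom.mem_ker, RingHom.mem_ker]
  change _ ↔ aeval _ (rename _ f) = 0
  rw [aeval_rename]
  cases σ
  · rfl
  · rfl

theorem K2_ex_edge {M : IntermediateField K L} (θ : M →ₐ[K] L') {σ : Bool} {x y : Fin n → L}
    (h : Edge P σ x y) (hx : ∀ c, x c ∈ M) (hy : ∀ c, y c ∈ M) :
    Edge P σ (fun c => K2_ex θ (x c)) (fun c => K2_ex θ (y c)) := by
  apply K2_edge_conj h
  have h1 := K2_ex_conj θ (y := Sum.elim x y) (by rintro (c | c); exacts [hx c, hy c])
  have h2 : (fun i => K2_ex θ (Sum.elim x y i)) =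
      Sum.elim (fun c => K2_ex θ (x c)) (fun c => K2_ex θ (y c)) := by
    funext i
    rcases i with i | i <;> rfl
  rw [h2] at h1
  exact h1

omit [Field L] in
theorem K2_pts_finite (v : ℕ → Fin n → L) (r : ℕ) : (pts v (Set.Iic r)).Finite := by
  unfold pts
  exact (Set.finite_Iic r).biUnion fun i _ => Set.finite_range (v i)

omit [Field L] in
theorem K2_pts_succ (v : ℕ → Fin n → L) (r : ℕ) :
    pts v (Set.Iic (r + 1)) = pts v (Set.Iic r) ∪ Set.range (v (r + 1)) := by
  unfold pts
  ext a
  simp only [Set.mem_iUnion, Set.mem_Iic, Set.mem_union, exists_prop]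
  constructor
  · rintro ⟨i, hi, ha⟩
    rcases Nat.lt_or_ge r i with h | h
    · have : i = r + 1 := by omega
      subst this
      exact Or.inr ha
    · exact Or.inl ⟨i, h, ha⟩
  · rintro (⟨i, hi, ha⟩ | ha)
    · exact ⟨i, by omega, ha⟩
    · exact ⟨r + 1, le_rfl, ha⟩

omit [Field L] in
theorem K2_pts_zero (v : ℕ → Fin n → L) : pts v (Set.Iic 0) = Set.range (v 0) := by
  unfold pts
  ext a
  simp

omit [Field L] in
theorem K2_mem_pts (v : ℕ → Fin n → L) {r i : ℕ} (hi : i ≤ r) :
    Set.range (v i) ⊆ pts v (Set.Iic r) := by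
  intro a ha
  unfold pts
  simp only [Set.mem_iUnion, Set.mem_Iic, exists_prop]
  exact ⟨i, hi, ha⟩

omit [Field L] in
theorem K2_pts_congr {v v' : ℕ → Fin n → L} {r : ℕ} (h : ∀ i ≤ r, v i = v' i) :
    pts v (Set.Iic r) = pts v' (Set.Iic r) := by
  unfold pts
  ext a
  simp only [Set.mem_iUnion, Set.mem_Iic, exists_prop]
  constructor
  · rintro ⟨i, hi, ha⟩; exact ⟨i, hi, by rw [← h i hi]; exact ha⟩
  · rintro ⟨i, hi, ha⟩; exact ⟨i, hi, by rw [h i hi]; exact ha⟩

end K2edge

section K2sys

variable {K : Type u} [Field K] [IsAlgClosed K] {n m k : ℕ} (S : Sys K n m k)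
  {L : Type u} [Field L] [Algebra K L]

include S

/-- a step adds at most `k` to the rank -/
theorem K2_step_le {σ : Bool} {x y : Fin n → L} (h : Edge S.P σ x y) {A : Set L}
    (hA : A.Finite) (hx : Set.range x ⊆ A) : rk K (A ∪ Set.range y) ≤ rk K A + k := by
  have h1 := K2_submod (K := K) hA (Set.finite_range y) hx
  rw [S.rkV L σ x y h, S.rkE L σ x y h] at h1
  have : (m + 1) * k = m * k + k := by ring
  omega

/-- the end of a walk of length `r` from a point of `A` -/
theorem K2_end_le {σ : Bool} {r : ℕ} {v : ℕ → Fin n → L} (h : IsWalk S.P σ r v) {A : Set L}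
    (hA : A.Finite) (hx : Set.range (v 0) ⊆ A) :
    rk K (A ∪ Set.range (v r)) ≤ rk K A + r * k := by
  induction r with
  | zero =>
    rw [Set.union_eq_self_of_subset_right hx]
    omega
  | succ r ih =>
    have h1 := ih (fun i hi => h i (by omega))
    have h2 := K2_step_le S (h r (by omega)) (A := A ∪ Set.range (v r))
      (hA.union (Set.finite_range _)) Set.subset_union_right
    have h3 : rk K (A ∪ Set.range (v (r + 1))) ≤
        rk K (A ∪ Set.range (v r) ∪ Set.range (v (r + 1))) := by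
      apply rk_mono ((hA.union (Set.finite_range _)).union (Set.finite_range _))
      apply Set.union_subset_union_left
      exact Set.subset_union_left
    have : (r + 1) * k = r * k + k := by ring
    omega

/-- generic walks exist -/
theorem K2_walk (hSTEP : ST_STEP.{u}) [Big K L] {σ : Bool} {x : Fin n → L} {A : Set L}
    (hA : A.Finite) (hx : Set.range x ⊆ A) (hv : Vtx S.P σ x) (r : ℕ) :
    ∃ h : ℕ → Fin n → L, h 0 = x ∧ IsWalk S.P σ r h ∧
      ∀ i ≤ r, rk K (A ∪ pts h (Set.Iic i)) = rk K A + i * k := by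
  induction r with
  | zero =>
    refine ⟨fun _ => x, rfl, fun i hi => absurd hi (by omega), fun i hi => ?_⟩
    obtain rfl : i = 0 := by omega
    rw [K2_pts_zero, Set.union_eq_self_of_subset_right hx]
    omega
  | succ r ih =>
    obtain ⟨h, h0, hw, hr⟩ := ih
    have hfin := hA.union (K2_pts_finite h r)
    have hlast : Vtx S.P (ty σ r) (h r) := by
      rcases Nat.eq_zero_or_pos r with hr0 | hr0
      · subst hr0
        rw [h0]
        exact hv
      · obtain ⟨r', rfl⟩ : ∃ r', r = r' + 1 := ⟨r - 1, by omega⟩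
        exact K2_vtx (K2_edge_symm (hw r' (by omega)))
    obtain ⟨y, hy1, hy2⟩ := hSTEP K n m k S L (ty σ r) (h r) (A ∪ pts h (Set.Iic r)) hfin hlast
    have hsub : Set.range (h r) ⊆ A ∪ pts h (Set.Iic r) :=
      (K2_mem_pts h le_rfl).trans Set.subset_union_right
    rw [Set.union_eq_self_of_subset_right hsub] at hy2
    let h' : ℕ → Fin n → L := fun i => if i ≤ r then h i else y
    have hh : ∀ i ≤ r, h' i = h i := fun i hi => if_pos hi
    have hh' : h' (r + 1) = y := if_neg (by omega)
    refine ⟨h', ?_, ?_, ?_⟩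
    · rw [hh 0 (by omega), h0]
    · intro i hi
      rcases Nat.lt_or_ge i r with hi' | hi'
      · rw [hh i (by omega), hh (i + 1) (by omega)]
        exact hw i hi'
      · obtain rfl : i = r := by omega
        rw [hh i le_rfl, hh']
        exact hy1
    · intro i hi
      rcases Nat.lt_or_ge r i with hi' | hi'
      · obtain rfl : i = r + 1 := by omega
        rw [K2_pts_succ, hh', K2_pts_congr hh, ← Set.union_assoc, hy2, hr r le_rfl]
        ring
      · rw [K2_pts_congr (v' := h) (fun j hj => hh j (by omega))]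
        exact hr i hi'

theorem K2_nb {A : Set L} {r : ℕ} {h : ℕ → Fin n → L}
    (hr : ∀ i ≤ r, rk K (A ∪ pts h (Set.Iic i)) = rk K A + i * k) : NB r h := by
  intro i hi he
  have h1 := hr (i + 2) hi
  have h2 := hr (i + 1) (by omega)
  have h3 : pts h (Set.Iic (i + 2)) = pts h (Set.Iic (i + 1)) := by
    rw [K2_pts_succ h (i + 1), ← he]
    exact Set.union_eq_self_of_subset_right (K2_mem_pts h (by omega))
  rw [h3, h2] at h1
  have h4 := S.one_le
  have h5 : (i + 2) * k = (i + 1) * k + k := by ring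
  omega

theorem K2_claim (hENDS : ST_ENDS.{u}) {σ : Bool} {x z : Fin n → L} (hxz : x ≠ z)
    {A : Set L} (hA : A.Finite) (hx : Set.range x ⊆ A) (hz : Set.range z ⊆ A) (q : ℕ) :
    q + 2 ≤ m → ∀ p l : ℕ → Fin n → L, IsWalk S.P σ (q + 1) p → IsWalk S.P σ (q + 1) l →
      NB (q + 1) l → p 0 = x → l 0 = z → p (q + 1) = l (q + 1) →
      rk K (A ∪ Set.range (p (q + 1))) ≤ rk K A + q * k := by
  induction q with
  | zero =>
    intro hq p l hp hl hnl hp0 hl0 hpl
    let g : ℕ → Fin n → L := fun i => if i = 0 then x else if i = 1 then p 1 else z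
    have hg : IsWalk S.P σ 2 g := by
      intro i hi
      have hcase : i = 0 ∨ i = 1 := by omega
      rcases hcase with rfl | rfl
      · have := hp 0 (by omega)
        rw [hp0] at this
        exact this
      · have := K2_edge_symm (hl 0 (by omega))
        rw [hl0] at this
        have e : g 1 = l 1 := hpl
        rw [e]
        exact this
    have hnb : NB 2 g := by
      intro i hi
      obtain rfl : i = 0 := by omega
      exact hxz
    have h1 := hENDS K n m k S L σ 2 g hq hg hnb 1 (by omega)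
    have h2 : Set.range (p (0 + 1)) ⊆ (cl K A : Set L) := by
      rintro _ ⟨c, rfl⟩
      have h3 := h1 c
      refine cl_mono ?_ h3
      exact Set.union_subset hx hz
    rw [rk_union_of_subset_cl h2]
    omega
  | succ q ih =>
    intro hq p l hp hl hnl hp0 hl0 hpl
    have hp' : IsWalk S.P σ (q + 1) p := fun i hi => hp i (by omega)
    have hl' : IsWalk S.P σ (q + 1) l := fun i hi => hl i (by omega)
    have hstep := K2_step_le S (hp (q + 1) (by omega)) (A := A ∪ Set.range (p (q + 1)))
      (hA.union (Set.finite_range _)) Set.subset_union_right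
    by_cases hpl' : p (q + 1) = l (q + 1)
    · have h1 := ih (by omega) p l hp' hl' (fun i hi => hnl i (by omega)) hp0 hl0 hpl'
      have h3 : rk K (A ∪ Set.range (p (q + 1 + 1))) ≤
          rk K (A ∪ Set.range (p (q + 1)) ∪ Set.range (p (q + 1 + 1))) := by
        apply rk_mono ((hA.union (Set.finite_range _)).union (Set.finite_range _))
        exact Set.union_subset_union_left _ Set.subset_union_left
      have : (q + 1) * k = q * k + k := by ring
      omega
    · let g : ℕ → Fin n → L := fun i => if i = 0 then p (q + 1) else l (q + 3 - i)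
      have hg0 : g 0 = p (q + 1) := if_pos rfl
      have hg1 : ∀ i, 1 ≤ i → g i = l (q + 3 - i) := fun i hi => if_neg (by omega)
      have hg : IsWalk S.P (ty σ (q + 1)) (q + 3) g := by
        intro i hi
        rcases Nat.eq_zero_or_pos i with h0 | h0
        · subst h0
          rw [hg0, hg1 (0 + 1) (by omega)]
          have := hp (q + 1) (by omega)
          rw [hpl] at this
          exact this
        · rw [hg1 i h0, hg1 (i + 1) (by omega)]
          have h1 := K2_edge_symm (hl (q + 2 - i) (by omega))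
          have e1 : q + 3 - (i + 1) = q + 2 - i := by omega
          have e2 : q + 2 - i + 1 = q + 3 - i := by omega
          have e3 : ty (ty σ (q + 1)) i = !(ty σ (q + 2 - i)) := by
            rw [← ty_add, ← ty_succ, e2]
            have e4 : q + 1 + i = (q + 3 - i) + 2 * (i - 1) := by omega
            rw [e4]
            generalize q + 3 - i = a
            generalize i - 1 = b
            induction b with
            | zero => rfl
            | succ b ihb =>
              have : a + 2 * (b + 1) = (a + 2 * b) + 2 := by ring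
              rw [this, ty_add_two, ihb]
          rw [e1, e3]
          rw [e2] at h1
          exact h1
      have hnb : NB (q + 3) g := by
        intro i hi
        rcases Nat.eq_zero_or_pos i with h0 | h0
        · subst h0
          rw [hg0, hg1 (0 + 2) (by omega)]
          exact hpl'
        · rw [hg1 i h0, hg1 (i + 2) (by omega)]
          have h1 := hnl (q + 1 - i) (by omega)
          have e1 : q + 3 - (i + 2) = q + 1 - i := by omega
          have e2 : q + 1 - i + 2 = q + 3 - i := by omega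
          rw [e1]
          rw [e2] at h1
          exact fun h => h1 h.symm
      have h1 := hENDS K n m k S L (ty σ (q + 1)) (q + 3) g hq hg hnb 1 (by omega)
      have hgl : g (q + 3) = z := by
        rw [hg1 (q + 3) (by omega), ← hl0]
        congr 1
        omega
      have h2 : Set.range (p (q + 1 + 1)) ⊆ (cl K (A ∪ Set.range (p (q + 1))) : Set L) := by
        rintro _ ⟨c, rfl⟩
        have h3 := h1 c
        rw [hg0, hgl, hg1 1 le_rfl] at h3
        rw [hpl]
        refine cl_mono ?_ h3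
        apply Set.union_subset
        · exact Set.subset_union_right
        · exact hz.trans Set.subset_union_left
      have h4 := rk_union_of_subset_cl h2
      have h5 : rk K (A ∪ Set.range (p (q + 1 + 1))) ≤
          rk K (A ∪ Set.range (p (q + 1)) ∪ Set.range (p (q + 1 + 1))) := by
        apply rk_mono ((hA.union (Set.finite_range _)).union (Set.finite_range _))
        exact Set.union_subset_union_left _ Set.subset_union_left
      have h6 := K2_end_le S hp' hA (by rw [hp0]; exact hx)
      omega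

/-- first case: `z` is as free as possible over `A₁` -/
theorem K2_case1 (hCONJ : ST_CONJ.{u}) [IsAlgClosed L] {σ : Bool} {x u v z : Fin n → L}
    {A₁ : Set L} (hA : A₁.Finite) (hx : Set.range x ⊆ A₁) (hxu : Edge S.P σ x u)
    (huv : Edge S.P (!σ) u v) (hu : ∀ c, u c ∈ cl K (Set.range x ∪ Set.range v))
    (hspec : Spec (cl K A₁) v z)
    (hr : rk K (A₁ ∪ Set.range v) ≤ rk K (A₁ ∪ Set.range z))
    (hru : rk K (A₁ ∪ Set.range u) ≤ rk K A₁ + 1)
    {h l : ℕ → Fin n → L} (h0 : h 0 = x) (hw : IsWalk S.P σ (m - 1) h)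
    (hgen : ∀ i ≤ m - 1, rk K (A₁ ∪ pts h (Set.Iic i)) = rk K A₁ + i * k)
    (hl0 : l 0 = z) (hl : IsWalk S.P σ (m - 1) l) (hnl : NB (m - 1) l)
    (hend : h (m - 1) = l (m - 1)) (hne : z ≠ x) : k ≤ 1 := by
  have hm := S.two_le
  obtain ⟨m', rfl⟩ : ∃ m', m = m' + 2 := ⟨m - 2, by omega⟩
  have em : m' + 2 - 1 = m' + 1 := rfl
  rw [em] at hw hgen hl hnl hend
  have hnh : NB (m' + 1) h := K2_nb S hgen
  obtain ⟨N, a, ha⟩ := hA.fin_embedding
  have haA : ∀ j, a j ∈ cl K A₁ := fun j => subset_cl _ (by rw [← ha]; exact ⟨j, rfl⟩)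
  have hsp : Spec K (Sum.elim a v) (Sum.elim a z) := K2_spec_sum a haA hspec
  have hra : ∀ y : Fin n → L, Set.range (Sum.elim a y) = A₁ ∪ Set.range y := by
    intro y
    rw [Set.Sum.elim_range, ha]
  have hconj : Conj K (Sum.elim a v) (Sum.elim a z) := by
    apply hsp.conj_of_rk_le
    rw [hra, hra]
    exact hr
  obtain ⟨θ, hθ⟩ := hCONJ K L L (Fin N ⊕ Fin n) (Sum.elim a v) (Sum.elim a z) hconj
  have hmem : ∀ b ∈ A₁ ∪ Set.range v, b ∈ cl K (Set.range (Sum.elim a v)) := by
    intro b hb
    apply subset_cl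
    rw [hra]
    exact hb
  have hθA : ∀ b ∈ A₁, K2_ex θ b = b := by
    intro b hb
    rw [K2_ex_eq θ (hmem b (Or.inl hb))]
    rw [← ha] at hb
    obtain ⟨j, rfl⟩ := hb
    exact hθ (Sum.inl j) _ rfl
  have hθv : ∀ c, K2_ex θ (v c) = z c := by
    intro c
    rw [K2_ex_eq θ (hmem (v c) (Or.inr ⟨c, rfl⟩))]
    exact hθ (Sum.inr c) _ rfl
  have hxm : ∀ c, x c ∈ cl K (Set.range (Sum.elim a v)) :=
    fun c => hmem _ (Or.inl (hx ⟨c, rfl⟩))
  have hvm : ∀ c, v c ∈ cl K (Set.range (Sum.elim a v)) :=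
    fun c => hmem _ (Or.inr ⟨c, rfl⟩)
  have hum : ∀ c, u c ∈ cl K (Set.range (Sum.elim a v)) := by
    intro c
    refine cl_mono ?_ (hu c)
    rw [hra]
    exact Set.union_subset_union_left _ hx
  have e1 := K2_ex_edge θ hxu hxm hum
  have e2 := K2_ex_edge θ huv hum hvm
  have ex : (fun c => K2_ex θ (x c)) = x := by
    funext c
    exact hθA _ (hx ⟨c, rfl⟩)
  have ev : (fun c => K2_ex θ (v c)) = z := by
    funext c
    exact hθv c
  rw [ex] at e1
  rw [ev] at e2
  obtain ⟨u', hu'⟩ : ∃ u' : Fin n → L, u' = fun c => K2_ex θ (u c) := ⟨_, rfl⟩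
  rw [← hu'] at e1 e2
  have hru' : rk K (A₁ ∪ Set.range u') ≤ rk K A₁ + 1 := by
    have h1 : K2_ex θ '' (A₁ ∪ Set.range u) = A₁ ∪ Set.range u' := by
      rw [Set.image_union]
      congr 1
      · ext b
        constructor
        · rintro ⟨b', hb', rfl⟩
          rw [hθA b' hb']
          exact hb'
        · intro hb
          exact ⟨b, hb, hθA b hb⟩
      · rw [← Set.range_comp, hu']
        rfl
    have h2 : A₁ ∪ Set.range u ⊆ (cl K (Set.range (Sum.elim a v)) : Set L) := by
      rintro b (hb | ⟨c, rfl⟩)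
      · exact hmem b (Or.inl hb)
      · exact hum c
    rw [← h1, K2_ex_rk θ h2]
    exact hru
  -- the long walk
  let q : ℕ → Fin n → L := fun i => if i = 0 then x else if i = 1 then u' else l (i - 2)
  have hq0 : q 0 = x := rfl
  have hq1 : q 1 = u' := rfl
  have hq2 : ∀ i, q (i + 2) = l i := fun i => rfl
  have hqw : IsWalk S.P σ (m' + 3) q := by
    intro i hi
    rcases i with _ | _ | i
    · exact e1
    · have : q (0 + 1 + 1) = z := hl0
      rw [this]
      exact e2
    · rw [hq2 i, hq2 (i + 1)]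
      have h3 := hl i (by omega)
      have h4 : ty σ (i + 1 + 1) = ty σ i := ty_add_two σ i
      rw [h4]
      exact h3
  have hu1 : u' = l 1 := by
    by_contra hne1
    have hqn : NB (m' + 3) q := by
      intro i hi
      rcases i with _ | _ | i
      · rw [hq0, hq2 0, hl0]
        exact fun h => hne h.symm
      · rw [hq2 1]
        exact hne1
      · rw [hq2 i, hq2 (i + 2)]
        exact hnl i (by omega)
    have h5 := S.uniq L σ (m' + 1) (m' + 3) h q (by omega) hw hqw hnh hqn
      (by rw [h0, hq0]) (ty_add_two σ (m' + 1)).symm (by rw [hq2 (m' + 1), hend])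
    omega
  -- the short walk
  let q' : ℕ → Fin n → L := fun i => if i = 0 then x else l i
  have hq'0 : q' 0 = x := rfl
  have hq'1 : ∀ i, q' (i + 1) = l (i + 1) := fun i => rfl
  have hqw' : IsWalk S.P σ (m' + 1) q' := by
    intro i hi
    rcases i with _ | i
    · rw [hq'0, hq'1 0, Nat.zero_add, ← hu1]
      exact e1
    · rw [hq'1 i, hq'1 (i + 1)]
      exact hl (i + 1) hi
  have hqn' : NB (m' + 1) q' := by
    intro i hi
    rcases i with _ | i
    · intro he
      rw [hq'0] at he
      have he' : x = l 2 := he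
      have hw2 : IsWalk S.P σ (m' - 1) (fun i => l (i + 2)) := by
        intro i hi'
        have h6 := hl (i + 2) (by omega)
        rw [ty_add_two] at h6
        exact h6
      have hn2 : NB (m' - 1) (fun i => l (i + 2)) := fun i hi' => hnl (i + 2) (by omega)
      have h7 := S.uniq L σ (m' + 1) (m' - 1) h (fun i => l (i + 2)) (by omega) hw hw2 hnh hn2
        (by rw [h0]; exact he')
        (by
          have : m' + 1 = (m' - 1) + 2 := by omega
          rw [this, ty_add_two])
        (by
          have : m' - 1 + 2 = m' + 1 := by omega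
          change h (m' + 1) = l (m' - 1 + 2)
          rw [this, hend])
      omega
    · exact hnl (i + 1) hi
  have h8 := S.uniq L σ (m' + 1) (m' + 1) h q' (by omega) hw hqw' hnh hqn'
    (by rw [h0, hq'0]) rfl (by rw [hend, hq'1 m'])
  have h9 : h 1 = u' := by
    rw [h8.2 1 (by omega), hu1]
    rfl
  have h10 := hgen 1 (by omega)
  have h11 : A₁ ∪ pts h (Set.Iic 1) = A₁ ∪ Set.range u' := by
    have : pts h (Set.Iic 1) = Set.range x ∪ Set.range u' := by
      rw [← h9, ← h0, ← K2_pts_zero h]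
      exact K2_pts_succ h 0
    rw [this, ← Set.union_assoc, Set.union_eq_self_of_subset_right hx]
  rw [h11] at h10
  omega

end K2sys

theorem st_K2 (hBIG : ST_BIG.{u}) (hKR : ST_KRULL.{u}) (hENDS : ST_ENDS.{u})
    (hSTEP : ST_STEP.{u}) (hFREE : ST_FREE.{u}) (hLD : ST_LD.{u}) (hCONJ : ST_CONJ.{u}) :
    ST_K2.{u} := by
  intro K _ _ n m k S
  by_contra hk
  have hk1 := S.one_le
  have hk2 : 2 ≤ k := by omega
  have hm := S.two_le
  obtain ⟨L₀, _, _, x₀, y₀, hedge⟩ := S.ne
  obtain ⟨Ω, _, _, _, _, hbig⟩ := hBIG K L₀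
  have halg : IsAlgClosed Ω := hbig.alg
  let φ : L₀ →ₐ[K] Ω := IsScalarTower.toAlgHom K L₀ Ω
  obtain ⟨x, hxdef⟩ : ∃ x : Fin n → Ω, x = fun c => φ (x₀ c) := ⟨_, rfl⟩
  obtain ⟨u₀, hu₀def⟩ : ∃ u₀ : Fin n → Ω, u₀ = fun c => φ (y₀ c) := ⟨_, rfl⟩
  have hxu₀ : Edge S.P true x u₀ := by
    apply K2_edge_conj hedge
    have h1 := conj_of_algHom φ (Sum.elim x₀ y₀)
    have h2 : (fun i => φ (Sum.elim x₀ y₀ i)) = Sum.elim x u₀ := by
      funext i
      rcases i with i | i
      · rw [hxdef]; rfl
      · rw [hu₀def]; rfl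
    rw [h2] at h1
    exact h1
  have hrx : rk K (Set.range x) = m * k := S.rkV Ω true x u₀ hxu₀
  have hrxu : rk K (Set.range x ∪ Set.range u₀) = (m + 1) * k := S.rkE Ω true x u₀ hxu₀
  have emk : (m + 1) * k = m * k + k := by ring
  -- prescribed coordinates
  obtain ⟨B, hB, hrB⟩ := K2_exists_subset (K := K) (Set.finite_range x) (Set.finite_range u₀)
    (m * k + (k - 1)) (by omega) (by omega)
  obtain ⟨A₁, hA₁⟩ : ∃ A₁ : Set Ω, A₁ = Set.range x ∪ B := ⟨_, rfl⟩
  have hfin₁ : A₁.Finite := by
    rw [hA₁]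
    exact (Set.finite_range x).union ((Set.finite_range u₀).subset hB)
  have hxA₁ : Set.range x ⊆ A₁ := by
    rw [hA₁]; exact Set.subset_union_left
  have hrA₁ : rk K A₁ = m * k + (k - 1) := by rw [hA₁]; exact hrB
  have hrA₁u₀ : rk K (A₁ ∪ Set.range u₀) = m * k + k := by
    have : A₁ ∪ Set.range u₀ = Set.range x ∪ Set.range u₀ := by
      rw [hA₁, Set.union_assoc, Set.union_eq_self_of_subset_left hB]
    rw [this, hrxu, emk]
  -- the generic walk
  obtain ⟨h, h0, hw, hgen⟩ := K2_walk S hSTEP hfin₁ hxA₁ (K2_vtx hxu₀) (m - 1)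
  have hnh : NB (m - 1) h := K2_nb S hgen
  obtain ⟨A₀, hA₀⟩ : ∃ A₀ : Set Ω, A₀ = A₁ ∪ pts h (Set.Iic (m - 1)) := ⟨_, rfl⟩
  have hfin₀ : A₀.Finite := by
    rw [hA₀]
    exact hfin₁.union (K2_pts_finite h _)
  have h₁₀ : A₁ ⊆ A₀ := by rw [hA₀]; exact Set.subset_union_left
  have hxA₀ : Set.range x ⊆ A₀ := hxA₁.trans h₁₀
  have hrA₀ : rk K A₀ = rk K A₁ + (m - 1) * k := by rw [hA₀]; exact hgen (m - 1) le_rfl
  obtain ⟨w, hwdef⟩ : ∃ w : Fin n → Ω, w = h (m - 1) := ⟨_, rfl⟩
  have hwA₀ : Set.range w ⊆ A₀ := by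
    rw [hA₀, hwdef]
    exact (K2_mem_pts h le_rfl).trans Set.subset_union_right
  have hends : ∀ i ≤ m - 1, ∀ c, h i c ∈ cl K (Set.range x ∪ Set.range w) := by
    intro i hi c
    have := hENDS K n m k S Ω true (m - 1) h (by omega) hw hnh i hi c
    rw [h0, ← hwdef] at this
    exact this
  have hpts : pts h (Set.Iic (m - 1)) ⊆ (cl K (Set.range x ∪ Set.range w) : Set Ω) := by
    intro b hb
    unfold pts at hb
    simp only [Set.mem_iUnion, Set.mem_Iic, exists_prop] at hb
    obtain ⟨i, hi, c, rfl⟩ := hb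
    exact hends i hi c
  have hA₀cl : A₀ ⊆ (cl K (A₁ ∪ Set.range w) : Set Ω) := by
    rw [hA₀]
    rintro b (hb | hb)
    · exact mem_cl_of_mem (Or.inl hb)
    · exact cl_mono (Set.union_subset_union_left _ hxA₁) (hpts hb)
  -- the vertex `u`
  obtain ⟨u, hu1, hu2⟩ := hFREE K Ω A₁ A₀ hfin₁ hfin₀ h₁₀ (Fin n) u₀
  have hxu : Edge S.P true x u := by
    apply K2_edge_conj hxu₀
    have hxc : ∀ c, x c ∈ cl K A₁ := fun c => mem_cl_of_mem (hxA₁ ⟨c, rfl⟩)
    exact Conj.of_spec (K2_spec_sum x hxc hu1.spec) (K2_spec_sum x hxc hu1.symm.spec)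
  have hrA₀u : rk K (A₀ ∪ Set.range u) = rk K A₀ + 1 := by omega
  have hrA₁u : rk K (A₁ ∪ Set.range u) ≤ rk K A₁ + 1 := by
    have := K2_spec_rk hfin₁ hu1.spec
    omega
  have hux : Edge S.P false u x := K2_edge_symm (σ := true) hxu
  have hru : rk K (Set.range u) = m * k := S.rkV Ω false u x hux
  have hrux : rk K (Set.range u ∪ Set.range x) = m * k + k := by
    rw [S.rkE Ω false u x hux, emk]
  -- the vertex `v`
  have hfinu : (A₀ ∪ Set.range u).Finite := hfin₀.union (Set.finite_range u)
  obtain ⟨v, hv1, hv2⟩ := hFREE K Ω (Set.range u) (A₀ ∪ Set.range u) (Set.finite_range u) hfinu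
    Set.subset_union_right (Fin n) x
  rw [hru, hrux, hrA₀u] at hv2
  have huc : ∀ c, u c ∈ cl K (Set.range u) := fun c => mem_cl_of_mem ⟨c, rfl⟩
  have huv : Edge S.P false u v := by
    apply K2_edge_conj hux
    exact Conj.of_spec (K2_spec_sum u huc hv1.spec) (K2_spec_sum u huc hv1.symm.spec)
  have hruv : rk K (Set.range u ∪ Set.range v) = m * k + k := by
    rw [S.rkE Ω false u v huv, emk]
  have hvx : v ≠ x := by
    rintro rfl
    rw [Set.union_eq_self_of_subset_right
      (hxA₀.trans (Set.subset_union_left : A₀ ⊆ A₀ ∪ Set.range u)), hrA₀u] at hv2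
    omega
  have hucl : ∀ c, u c ∈ cl K (Set.range x ∪ Set.range v) := by
    let g : ℕ → Fin n → Ω := fun i => if i = 0 then x else if i = 1 then u else v
    have hg : IsWalk S.P true 2 g := by
      intro i hi
      have hcase : i = 0 ∨ i = 1 := by omega
      rcases hcase with rfl | rfl
      · exact hxu
      · exact huv
    have hnb : NB 2 g := by
      intro i hi
      obtain rfl : i = 0 := by omega
      exact fun h => hvx h.symm
    exact hENDS K n m k S Ω true 2 g hm hg hnb 1 (by omega)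
  have hfinv : (A₀ ∪ Set.range v).Finite := hfin₀.union (Set.finite_range v)
  have hrA₀v : rk K A₀ + 1 + k ≤ rk K (A₀ ∪ Set.range v) := by
    have h1 : A₀ ∪ Set.range u ∪ Set.range v ⊆ (cl K (A₀ ∪ Set.range v) : Set Ω) := by
      rintro b ((hb | ⟨c, rfl⟩) | hb)
      · exact mem_cl_of_mem (Or.inl hb)
      · exact cl_mono (Set.union_subset_union_left _ hxA₀) (hucl c)
      · exact mem_cl_of_mem (Or.inr hb)
    have h2 := rk_le_of_subset_cl hfinv h1
    omega
  have hrA₁v : rk K (A₁ ∪ Set.range v) ≤ rk K A₁ + 1 + k := by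
    have h1 := K2_step_le S huv (A := A₁ ∪ Set.range u) (hfin₁.union (Set.finite_range u))
      Set.subset_union_right
    have h2 : rk K (A₁ ∪ Set.range v) ≤ rk K (A₁ ∪ Set.range u ∪ Set.range v) := by
      apply rk_mono ((hfin₁.union (Set.finite_range u)).union (Set.finite_range v))
      exact Set.union_subset_union_left _ Set.subset_union_left
    omega
  -- `x` is a specialization of `v`
  have hsp : Spec (cl K A₀) v x := by
    have h1 := hLD K Ω (Set.range u) (A₀ ∪ Set.range u) (Set.finite_range u) hfinu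
      Set.subset_union_right (Fin n) v x (by rw [hru, hruv, hrA₀u]; omega) hv1.symm.spec
    exact K2_spec_mono Set.subset_union_left h1
  -- ranks of `w`
  obtain ⟨m', rfl⟩ : ∃ m', m = m' + 2 := ⟨m - 2, by omega⟩
  have em : m' + 2 - 1 = m' + 1 := rfl
  rw [em] at hw hgen hnh hA₀ hrA₀ hwdef hends hpts
  have hrw : rk K (Set.range w) = (m' + 2) * k := by
    have h1 := K2_edge_symm (hw m' (by omega))
    rw [hwdef]
    exact S.rkV Ω _ _ _ h1
  have hrwx : (m' + 2) * k + (m' + 1) * k ≤ rk K (Set.range w ∪ Set.range x) := by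
    have h1 : pts h (Set.Iic (m' + 1)) ⊆ (cl K (Set.range w ∪ Set.range x) : Set Ω) := by
      rw [Set.union_comm]
      exact hpts
    have h2 : rk K (Set.range x ∪ pts h (Set.Iic (m' + 1))) ≤
        rk K (Set.range w ∪ Set.range x) := by
      apply rk_le_of_subset_cl ((Set.finite_range w).union (Set.finite_range x))
      rintro b (hb | hb)
      · exact mem_cl_of_mem (Or.inr hb)
      · exact h1 hb
    have h3 := K2_submod (K := K) hfin₁ (K2_pts_finite h (m' + 1)) hxA₁
    rw [← hA₀, hrA₀, hrx] at h3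
    omega
  obtain ⟨z, hz1, hz2, hz3, hz4⟩ := hKR K Ω n (Set.range w) A₀ (Set.finite_range w) hfin₀ hwA₀
    x v (fun c => mem_cl_of_mem (hxA₀ ⟨c, rfl⟩)) (K2_spec_base hv1.spec) hsp (by
      rw [hrx, hrw]
      have : (m' + 2) * k = (m' + 1) * k + k := by ring
      omega)
  -- the walk from `z` to `w`
  have hwc : ∀ c, w c ∈ cl K (Set.range w) := fun c => mem_cl_of_mem ⟨c, rfl⟩
  have hconj : Conj K (Sum.elim w x) (Sum.elim w z) :=
    Conj.of_spec (K2_spec_sum w hwc hz4.symm.spec) (K2_spec_sum w hwc hz4.spec)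
  obtain ⟨θ, hθ⟩ := hCONJ K Ω Ω (Fin n ⊕ Fin n) (Sum.elim w x) (Sum.elim w z) hconj
  have hrange : Set.range (Sum.elim w x) = Set.range x ∪ Set.range w := by
    rw [Set.Sum.elim_range, Set.union_comm]
  have hhm : ∀ i ≤ m' + 1, ∀ c, h i c ∈ cl K (Set.range (Sum.elim w x)) := by
    intro i hi c
    rw [hrange]
    exact hends i hi c
  let l : ℕ → Fin n → Ω := fun i c => K2_ex θ (h i c)
  have hl : IsWalk S.P true (m' + 1) l := fun i hi =>
    K2_ex_edge θ (hw i hi) (hhm i (by omega)) (hhm (i + 1) (by omega))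
  have hnl : NB (m' + 1) l := by
    intro i hi he
    apply hnh i hi
    funext c
    exact K2_ex_inj θ (hhm i (by omega) c) (hhm (i + 2) (by omega) c) (congrFun he c)
  have hl0 : l 0 = z := by
    funext c
    change K2_ex θ (h 0 c) = z c
    have h1 := hhm 0 (by omega) c
    rw [K2_ex_eq θ h1]
    exact hθ (Sum.inr c) ⟨h 0 c, h1⟩ (congrFun h0 c)
  have hlw : h (m' + 1) = l (m' + 1) := by
    funext c
    change _ = K2_ex θ (h (m' + 1) c)
    have h1 := hhm (m' + 1) le_rfl c
    rw [K2_ex_eq θ h1]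
    have h2 := hθ (Sum.inl c) ⟨h (m' + 1) c, h1⟩ (congrFun hwdef.symm c)
    rw [h2, ← hwdef]
    rfl
  -- the two cases
  by_cases hcase : rk K A₁ + 1 + k ≤ rk K (A₁ ∪ Set.range z)
  · have h1 := K2_case1 S hCONJ hfin₁ hxA₁ hxu huv hucl (K2_spec_mono h₁₀ hz1)
      (hrA₁v.trans hcase) hrA₁u h0 hw hgen hl0 hl hnl hlw hz3
    omega
  · have hfinz : (A₁ ∪ Set.range z).Finite := hfin₁.union (Set.finite_range z)
    have h1 := K2_claim S hENDS (fun h => hz3 h.symm) hfinz
      (hxA₁.trans Set.subset_union_left) Set.subset_union_right m' le_rfl h l hw hl hnl h0 hl0 hlw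
    have h2 : ¬ Set.range z ⊆ (cl K A₀ : Set Ω) := K2_not_subset hz2 hz3
    have h3 := K2_rk_lt hfin₀ (Set.finite_range z) h2
    have h4 : rk K (A₀ ∪ Set.range z) ≤
        rk K (A₁ ∪ Set.range z ∪ Set.range (h (m' + 1))) := by
      apply rk_le_of_subset_cl (hfinz.union (Set.finite_range _))
      rintro b (hb | hb)
      · refine cl_mono ?_ (hA₀cl hb)
        rw [hwdef]
        exact Set.union_subset_union_left _ Set.subset_union_left
      · exact mem_cl_of_mem (Or.inl (Or.inr hb))
    have : (m' + 1) * k = m' * k + k := by ring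
    omega

end Pool.Agent.Helper92.GG
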